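import Pool.Agent.Q191.SY.Sc

/-!
# Rotations of one coordinate plane and the maps commuting with them: algebra
-/

set_option autoImplicit false

open Set Metric Topology Q170.SC
open scoped ContDiff

namespace Pool.Agent.Q191.RT

variable {n : ℕ}

/-- the point `z` with its `i`-th complex coordinate multiplied by `a + √-1 b` -/
def cmul (i : Fin n) (a b : ℝ) (z : E n) : E n :=
  (Function.update z.1 i (a * z.1 i - b * z.2 i), Function.update z.2 i (b * z.1 i + a * z.2 i))

/-- the square of the absolute value of the `i`-th complex coordinate -/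
def rad (i : Fin n) (z : E n) : ℝ := z.1 i ^ 2 + z.2 i ^ 2

/-- the point `z` with its `i`-th complex coordinate replaced by the real number `r` -/
def sec (i : Fin n) (r : ℝ) (z : E n) : E n := (Function.update z.1 i r, Function.update z.2 i 0)

/-- the shifted map -/
noncomputable def shift (i : Fin n) (c : ℝ) (f : E n → E n) (z : E n) : E n :=
  cmul i (z.1 i / √(rad i z + c)) (z.2 i / √(rad i z + c)) (f (sec i (√(rad i z + c)) z))

/-- `f` commutes with the rotations of the `i`-th coordinate plane -/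
def Comm (i : Fin n) (f : E n → E n) : Prop :=
  ∀ a b : ℝ, a ^ 2 + b ^ 2 = 1 → ∀ z, f (cmul i a b z) = cmul i a b (f z)

variable (i : Fin n)

theorem ext_i {z w : E n} (h1 : z.1 i = w.1 i) (h2 : z.2 i = w.2 i)
    (h3 : ∀ j, j ≠ i → z.1 j = w.1 j) (h4 : ∀ j, j ≠ i → z.2 j = w.2 j) : z = w := by
  refine Prod.ext (funext fun j => ?_) (funext fun j => ?_)
  · by_cases h : j = i
    · rw [h, h1]
    · exact h3 j h
  · by_cases h : j = i
    · rw [h, h2]
    · exact h4 j h

@[simp] theorem cmul_fst (a b : ℝ) (z : E n) : (cmul i a b z).1 i = a * z.1 i - b * z.2 i := by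
  simp [cmul]

@[simp] theorem cmul_snd (a b : ℝ) (z : E n) : (cmul i a b z).2 i = b * z.1 i + a * z.2 i := by
  simp [cmul]

theorem cmul_fst' (a b : ℝ) (z : E n) {j : Fin n} (h : j ≠ i) : (cmul i a b z).1 j = z.1 j := by
  simp [cmul, h]

theorem cmul_snd' (a b : ℝ) (z : E n) {j : Fin n} (h : j ≠ i) : (cmul i a b z).2 j = z.2 j := by
  simp [cmul, h]

@[simp] theorem sec_fst (r : ℝ) (z : E n) : (sec i r z).1 i = r := by simp [sec]

@[simp] theorem sec_snd (r : ℝ) (z : E n) : (sec i r z).2 i = 0 := by simp [sec]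

theorem sec_fst' (r : ℝ) (z : E n) {j : Fin n} (h : j ≠ i) : (sec i r z).1 j = z.1 j := by
  simp [sec, h]

theorem sec_snd' (r : ℝ) (z : E n) {j : Fin n} (h : j ≠ i) : (sec i r z).2 j = z.2 j := by
  simp [sec, h]

theorem cmul_cmul (a b a' b' : ℝ) (z : E n) :
    cmul i a b (cmul i a' b' z) = cmul i (a * a' - b * b') (a * b' + b * a') z := by
  refine ext_i i ?_ ?_ (fun j h => ?_) (fun j h => ?_)
  · simp only [cmul_fst, cmul_snd]; ring
  · simp only [cmul_fst, cmul_snd]; ring
  · simp only [cmul_fst' i _ _ _ h]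
  · simp only [cmul_snd' i _ _ _ h]

theorem cmul_one (z : E n) : cmul i 1 0 z = z := by
  refine ext_i i ?_ ?_ (fun j h => ?_) (fun j h => ?_)
  · simp
  · simp
  · simp only [cmul_fst' i _ _ _ h]
  · simp only [cmul_snd' i _ _ _ h]

theorem rad_cmul (a b : ℝ) (z : E n) : rad i (cmul i a b z) = (a ^ 2 + b ^ 2) * rad i z := by
  simp only [rad, cmul_fst, cmul_snd]; ring

theorem sec_cmul (r a b : ℝ) (z : E n) : sec i r (cmul i a b z) = sec i r z := by
  refine ext_i i ?_ ?_ (fun j h => ?_) (fun j h => ?_)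
  · simp
  · simp
  · rw [sec_fst' i _ _ h, sec_fst' i _ _ h, cmul_fst' i _ _ _ h]
  · rw [sec_snd' i _ _ h, sec_snd' i _ _ h, cmul_snd' i _ _ _ h]

theorem cmul_sec (a b r : ℝ) (z : E n) (h1 : a * r = z.1 i) (h2 : b * r = z.2 i) :
    cmul i a b (sec i r z) = z := by
  refine ext_i i ?_ ?_ (fun j h => ?_) (fun j h => ?_)
  · simp [h1]
  · simp [h2]
  · rw [cmul_fst' i _ _ _ h, sec_fst' i _ _ h]
  · rw [cmul_snd' i _ _ _ h, sec_snd' i _ _ h]

theorem rad_nonneg (z : E n) : 0 ≤ rad i z := by unfold rad; positivity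

theorem rad_zero {z : E n} (h : rad i z = 0) : z.1 i = 0 ∧ z.2 i = 0 := by
  unfold rad at h
  constructor <;> nlinarith [sq_nonneg (z.1 i), sq_nonneg (z.2 i)]

theorem rad_add_zero {z : E n} {c : ℝ} (hc : 0 ≤ c) (h : √(rad i z + c) = 0) :
    z.1 i = 0 ∧ z.2 i = 0 := by
  have h1 := rad_nonneg i z
  rw [Real.sqrt_eq_zero (by linarith)] at h
  exact rad_zero i (by linarith)

theorem div_mul_sqrt {z : E n} {c : ℝ} (hc : 0 ≤ c) :
    z.1 i / √(rad i z + c) * √(rad i z + c) = z.1 i ∧
      z.2 i / √(rad i z + c) * √(rad i z + c) = z.2 i := by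
  by_cases h : √(rad i z + c) = 0
  · obtain ⟨h1, h2⟩ := rad_add_zero i hc h
    rw [h1, h2]
    simp
  · constructor <;> field_simp

theorem shift_of_fix {c : ℝ} (hc : 0 ≤ c) (f : E n → E n) (z : E n)
    (h : f (sec i (√(rad i z + c)) z) = sec i (√(rad i z + c)) z) : shift i c f z = z := by
  unfold shift
  rw [h]
  exact cmul_sec i _ _ _ _ (div_mul_sqrt i hc).1 (div_mul_sqrt i hc).2

/-- the shifted map commutes with the rotations -/
theorem shift_comm (c : ℝ) (f : E n → E n) : Comm i (shift i c f) := by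
  intro a b hab z
  unfold shift
  rw [rad_cmul, hab, one_mul, sec_cmul, cmul_cmul]
  simp only [cmul_fst, cmul_snd]
  congr 1 <;> ring

variable {i}

/-- on the fixed points of the rotations -/
theorem Comm.fixed {f : E n → E n} (hf : Comm i f) {z : E n} (h1 : z.1 i = 0) (h2 : z.2 i = 0) :
    (f z).1 i = 0 ∧ (f z).2 i = 0 := by
  have e : cmul i (-1) 0 z = z := by
    refine ext_i i ?_ ?_ (fun j h => ?_) (fun j h => ?_)
    · simp [h1]
    · simp [h2]
    · rw [cmul_fst' i _ _ _ h]
    · rw [cmul_snd' i _ _ _ h]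
  have h := hf (-1) 0 (by norm_num) z
  rw [e] at h
  have a1 := congrArg (fun w : E n => w.1 i) h
  have a2 := congrArg (fun w : E n => w.2 i) h
  simp only [cmul_fst, cmul_snd] at a1 a2
  constructor <;> linarith

theorem shift_zero {f : E n → E n} (hf : Comm i f) (z : E n) : shift i 0 f z = f z := by
  have hq : (rad i z + 0) = rad i z := add_zero _
  by_cases h : √(rad i z + 0) = 0
  · obtain ⟨h1, h2⟩ := rad_add_zero i le_rfl h
    obtain ⟨h3, h4⟩ := hf.fixed h1 h2
    have e : sec i 0 z = z := by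
      refine ext_i i ?_ ?_ (fun j h => ?_) (fun j h => ?_)
      · simp [h1]
      · simp [h2]
      · rw [sec_fst' i _ _ h]
      · rw [sec_snd' i _ _ h]
    unfold shift
    rw [h, e]
    refine ext_i i ?_ ?_ (fun j h => ?_) (fun j h => ?_)
    · simp [h3, h4]
    · simp [h3, h4]
    · rw [cmul_fst' i _ _ _ h]
    · rw [cmul_snd' i _ _ _ h]
  · unfold shift
    rw [← hf, cmul_sec i _ _ _ _ (div_mul_sqrt i le_rfl).1 (div_mul_sqrt i le_rfl).2]
    rw [div_pow, div_pow, ← add_div, Real.sq_sqrt (by rw [hq]; exact rad_nonneg i z), hq]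
    have h3 : rad i z ≠ 0 := by
      intro h4
      apply h
      rw [hq, h4, Real.sqrt_zero]
    show rad i z / rad i z = 1
    exact div_self h3

/-- the shifted map as a conjugate -/
theorem shift_eq {f : E n → E n} (hf : Comm i f) {c : ℝ} {z : E n} (hz : 0 < rad i z) :
    shift i c f z = cmul i (√(rad i z) / √(rad i z + c)) 0
      (f (cmul i (√(rad i z + c) / √(rad i z)) 0 z)) := by
  have hr : 0 < √(rad i z) := Real.sqrt_pos.2 hz
  have h1 : (z.1 i / √(rad i z)) ^ 2 + (z.2 i / √(rad i z)) ^ 2 = 1 := by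
    rw [div_pow, div_pow, ← add_div, Real.sq_sqrt hz.le]
    exact div_self hz.ne'
  have h2 : cmul i (z.1 i / √(rad i z)) (z.2 i / √(rad i z)) (sec i (√(rad i z + c)) z) =
      cmul i (√(rad i z + c) / √(rad i z)) 0 z := by
    refine ext_i i ?_ ?_ (fun j h => ?_) (fun j h => ?_)
    · simp only [cmul_fst, sec_fst, sec_snd]; ring
    · simp only [cmul_snd, sec_fst, sec_snd]; ring
    · rw [cmul_fst' i _ _ _ h, cmul_fst' i _ _ _ h, sec_fst' i _ _ h]
    · rw [cmul_snd' i _ _ _ h, cmul_snd' i _ _ _ h, sec_snd' i _ _ h]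
  rw [← h2, hf _ _ h1, cmul_cmul]
  unfold shift
  congr 1
  · field_simp
    ring
  · field_simp
    ring

variable (i)

/-- the points with nonzero `i`-th complex coordinate are dense -/
theorem dense_rad : Dense {z : E n | 0 < rad i z} := by
  intro z
  by_cases h : 0 < rad i z
  · exact subset_closure h
  · have h0 : rad i z = 0 := le_antisymm (not_lt.1 h) (rad_nonneg i z)
    obtain ⟨h1, h2⟩ := rad_zero i h0
    have hc0 : Continuous fun t : ℝ => Function.update z.1 i t :=
      continuous_const.update i continuous_id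
    have hc : Continuous fun t : ℝ => ((Function.update z.1 i t, z.2) : E n) :=
      hc0.prodMk continuous_const
    have ht : Filter.Tendsto (fun t : ℝ => ((Function.update z.1 i t, z.2) : E n)) (𝓝[≠] 0)
        (𝓝 z) := by
      have := (hc.tendsto 0).mono_left (nhdsWithin_le_nhds (s := {(0:ℝ)}ᶜ))
      have e : ((Function.update z.1 i 0, z.2) : E n) = z := by
        rw [← h1, Function.update_eq_self]
      rwa [e] at this
    refine mem_closure_of_tendsto ht ?_
    filter_upwards [self_mem_nhdsWithin] with t ht0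
    have : t ≠ 0 := ht0
    show 0 < rad i ((Function.update z.1 i t, z.2) : E n)
    unfold rad
    simp only [Function.update_self]
    positivity

theorem continuous_rad : Continuous (rad i : E n → ℝ) := by
  unfold rad
  fun_prop

theorem isOpen_rad : IsOpen {z : E n | 0 < rad i z} := isOpen_lt continuous_const (continuous_rad i)

end Pool.Agent.Q191.RT
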