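import Pool.Agent.Helper87.CMC.MPI

/-!
# Even functions of the square root of a nonnegative function
-/

set_option autoImplicit false
set_option linter.unusedSectionVars false

open Set Metric Topology
open scoped ContDiff

namespace Pool.Agent.Q191.RT

section had

variable {W V : Type} [NormedAddCommGroup W] [NormedSpace ℝ W]
  [NormedAddCommGroup V] [NormedSpace ℝ V]

/-- derivative in the first variable -/
noncomputable def dr (A : ℝ × W → V) (p : ℝ × W) : V := fderiv ℝ A p (1, 0)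

/-- derivative in the second variable -/
noncomputable def dw (A : ℝ × W → V) (p : ℝ × W) : W →L[ℝ] V :=
  (fderiv ℝ A p).comp (ContinuousLinearMap.inr ℝ ℝ W)

/-- the quotient `(A (r, w) - A (0, w)) / r` -/
noncomputable def had (A : ℝ × W → V) (p : ℝ × W) : V := ∫ s in (0:ℝ)..1, dr A (s * p.1, p.2)

variable {O : Set W} {A : ℝ × W → V}

theorem open_prod (hO : IsOpen O) : IsOpen ((univ : Set ℝ) ×ˢ O) := isOpen_univ.prod hO

theorem dr_smooth (hO : IsOpen O) (hA : ContDiffOn ℝ ∞ A (univ ×ˢ O)) :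
    ContDiffOn ℝ ∞ (dr A) (univ ×ˢ O) := by
  have h := hA.fderiv_of_isOpen (open_prod hO) (m := ∞) (by simp)
  exact h.clm_apply contDiffOn_const

theorem dw_smooth (hO : IsOpen O) (hA : ContDiffOn ℝ ∞ A (univ ×ˢ O)) :
    ContDiffOn ℝ ∞ (dw A) (univ ×ˢ O) := by
  have h := hA.fderiv_of_isOpen (open_prod hO) (m := ∞) (by simp)
  exact h.clm_comp contDiffOn_const

theorem hasF (hO : IsOpen O) (hA : ContDiffOn ℝ ∞ A (univ ×ˢ O)) (r : ℝ) {w : W} (hw : w ∈ O) :
    HasFDerivAt A (fderiv ℝ A (r, w)) (r, w) :=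
  ((hA.contDiffAt ((open_prod hO).mem_nhds ⟨mem_univ _, hw⟩)).differentiableAt
    (by simp)).hasFDerivAt

theorem hasDr (hO : IsOpen O) (hA : ContDiffOn ℝ ∞ A (univ ×ˢ O)) (r : ℝ) {w : W} (hw : w ∈ O) :
    HasDerivAt (fun t => A (t, w)) (dr A (r, w)) r := by
  have h2 : HasDerivAt (fun t : ℝ => ((t, w) : ℝ × W)) ((1, 0) : ℝ × W) r :=
    (hasDerivAt_id r).prodMk (hasDerivAt_const r w)
  exact (hasF hO hA r hw).comp_hasDerivAt r h2

theorem hasDw (hO : IsOpen O) (hA : ContDiffOn ℝ ∞ A (univ ×ˢ O)) (r : ℝ) {w : W} (hw : w ∈ O) :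
    HasFDerivAt (fun u => A (r, u)) (dw A (r, w)) w :=
  (hasF hO hA r hw).comp w (hasFDerivAt_prodMk_right r w)

/-- the derivative of an even function is odd -/
theorem dr_odd (hO : IsOpen O) (hA : ContDiffOn ℝ ∞ A (univ ×ˢ O))
    (hev : ∀ r, ∀ w ∈ O, A (-r, w) = A (r, w)) (r : ℝ) (w : W) (hw : w ∈ O) :
    dr A (-r, w) = -dr A (r, w) := by
  have h1 := hasDr hO hA (-r) hw
  have h2 : HasDerivAt (fun t => A (-t, w)) ((-1 : ℝ) • dr A (-r, w)) r :=
    h1.scomp r (hasDerivAt_neg r)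
  have h3 : (fun t => A (-t, w)) = fun t => A (t, w) := funext fun t => hev t w hw
  rw [h3] at h2
  have h4 := h2.unique (hasDr hO hA r hw)
  rw [← h4]
  simp

/-- the derivative of an odd function is even -/
theorem dr_even (hO : IsOpen O) (hA : ContDiffOn ℝ ∞ A (univ ×ˢ O))
    (hev : ∀ r, ∀ w ∈ O, A (-r, w) = -A (r, w)) (r : ℝ) (w : W) (hw : w ∈ O) :
    dr A (-r, w) = dr A (r, w) := by
  have h1 := hasDr hO hA (-r) hw
  have h2 : HasDerivAt (fun t => A (-t, w)) ((-1 : ℝ) • dr A (-r, w)) r :=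
    h1.scomp r (hasDerivAt_neg r)
  have h3 : (fun t => A (-t, w)) = fun t => -A (t, w) := funext fun t => hev t w hw
  rw [h3] at h2
  have h4 := h2.unique (hasDr hO hA r hw).neg
  have h5 : dr A (-r, w) = -((-1 : ℝ) • dr A (-r, w)) := by simp
  rw [h5, h4, neg_neg]

theorem dw_even (hO : IsOpen O) (hA : ContDiffOn ℝ ∞ A (univ ×ˢ O))
    (hev : ∀ r, ∀ w ∈ O, A (-r, w) = A (r, w)) (r : ℝ) (w : W) (hw : w ∈ O) :
    dw A (-r, w) = dw A (r, w) := by
  have h1 := hasDw hO hA (-r) hw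
  have h2 := hasDw hO hA r hw
  refine (h1.congr_of_eventuallyEq ?_).unique h2
  filter_upwards [hO.mem_nhds hw] with u hu
  exact (hev r u hu).symm

theorem had_smooth [FiniteDimensional ℝ W] [CompleteSpace V] (hO : IsOpen O)
    (hA : ContDiffOn ℝ ∞ A (univ ×ˢ O)) : ContDiffOn ℝ ∞ (had A) (univ ×ˢ O) := by
  have h1 : IsOpen {q : ℝ × (ℝ × W) | q.2.2 ∈ O} := hO.preimage (by fun_prop)
  refine Helper87.CMC.contDiffOn_paramInt01 h1 (open_prod hO) (fun y hy s _ => hy.2)
    (fun q : ℝ × (ℝ × W) => dr A (q.1 * q.2.1, q.2.2)) ?_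
  have h2 : ContDiff ℝ ∞ (fun q : ℝ × (ℝ × W) => ((q.1 * q.2.1, q.2.2) : ℝ × W)) := by fun_prop
  exact (dr_smooth hO hA).comp h2.contDiffOn fun q hq => ⟨mem_univ _, hq⟩

theorem had_spec [CompleteSpace V] (hO : IsOpen O) (hA : ContDiffOn ℝ ∞ A (univ ×ˢ O)) (r : ℝ)
    {w : W} (hw : w ∈ O) : A (r, w) = A (0, w) + r • had A (r, w) := by
  have hd : ∀ s ∈ uIcc (0:ℝ) 1, HasDerivAt (fun s : ℝ => A (s * r, w)) (r • dr A (s * r, w)) s := by
    intro s _
    have h2 : HasDerivAt (fun s : ℝ => s * r) r s := by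
      have := (hasDerivAt_id s).mul_const r
      rw [one_mul] at this
      exact this
    exact (hasDr hO hA (s * r) hw).scomp s h2
  have hc : Continuous fun s : ℝ => dr A (s * r, w) := by
    rw [← continuousOn_univ]
    refine (dr_smooth hO hA).continuousOn.comp (by fun_prop) fun s _ => ⟨mem_univ _, hw⟩
  have h := intervalIntegral.integral_eq_sub_of_hasDerivAt hd
    ((continuous_const.smul hc).intervalIntegrable _ _)
  rw [intervalIntegral.integral_smul] at h
  simp only [one_mul, zero_mul] at h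
  have e : r • had A (r, w) = A (r, w) - A (0, w) := h
  rw [e]
  abel

theorem had_even (hO : IsOpen O) (hA : ContDiffOn ℝ ∞ A (univ ×ˢ O))
    (hev : ∀ r, ∀ w ∈ O, A (-r, w) = -A (r, w)) (r : ℝ) (w : W) (hw : w ∈ O) :
    had A (-r, w) = had A (r, w) := by
  unfold had
  congr 1
  funext s
  simp only [mul_neg]
  exact dr_even hO hA hev _ _ hw

theorem had_odd (hO : IsOpen O) (hA : ContDiffOn ℝ ∞ A (univ ×ˢ O))
    (hev : ∀ r, ∀ w ∈ O, A (-r, w) = A (r, w)) (r : ℝ) (w : W) (hw : w ∈ O) :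
    had A (-r, w) = -had A (r, w) := by
  unfold had
  rw [← intervalIntegral.integral_neg]
  congr 1
  funext s
  simp only [mul_neg]
  exact dr_odd hO hA hev _ _ hw

theorem zero_of_odd {B : ℝ × W → V} (hev : ∀ r, ∀ w ∈ O, B (-r, w) = -B (r, w)) (w : W)
    (hw : w ∈ O) : B (0, w) = 0 := by
  have h := hev 0 w hw
  rw [neg_zero] at h
  have h2 : (2 : ℝ) • B (0, w) = 0 := by
    rw [two_smul]
    nth_rw 1 [h]
    simp
  exact (smul_eq_zero.1 h2).resolve_left (by norm_num)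

end had

section comp

variable {W X : Type} [NormedAddCommGroup W] [NormedSpace ℝ W] [FiniteDimensional ℝ W]
  [NormedAddCommGroup X] [NormedSpace ℝ X] {O : Set W} {Ω : Set X} {s : X → ℝ} {w : X → W}

/-- the derivative of `A (√s, w)` -/
theorem hasF_comp {V : Type} [NormedAddCommGroup V] [NormedSpace ℝ V] [CompleteSpace V]
    (hO : IsOpen O) (hΩ : IsOpen Ω) (hs : ContDiffOn ℝ ∞ s Ω) (hs0 : ∀ x ∈ Ω, 0 ≤ s x)
    (hw : ContDiffOn ℝ ∞ w Ω) (hwO : ∀ x ∈ Ω, w x ∈ O)
    {A : ℝ × W → V} (hA : ContDiffOn ℝ ∞ A (univ ×ˢ O))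
    (hev : ∀ r, ∀ w ∈ O, A (-r, w) = A (r, w)) (x : X) (hx : x ∈ Ω) :
    HasFDerivAt (fun x => A (√(s x), w x))
      (((1 / 2 : ℝ) • fderiv ℝ s x).smulRight (had (dr A) (√(s x), w x)) +
        (dw A (√(s x), w x)).comp (fderiv ℝ w x)) x := by
  have hsx : HasFDerivAt s (fderiv ℝ s x) x :=
    ((hs.contDiffAt (hΩ.mem_nhds hx)).differentiableAt (by simp)).hasFDerivAt
  have hwx : HasFDerivAt w (fderiv ℝ w x) x :=
    ((hw.contDiffAt (hΩ.mem_nhds hx)).differentiableAt (by simp)).hasFDerivAt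
  have hA2 := dr_smooth hO hA
  have hodd := dr_odd hO hA hev
  rcases (hs0 x hx).eq_or_lt with h0 | h0
  · -- zero of `s`
    have hmin : IsLocalMin s x := by
      filter_upwards [hΩ.mem_nhds hx] with y hy
      rw [← h0]
      exact hs0 y hy
    have hd0 : fderiv ℝ s x = 0 := hmin.fderiv_eq_zero
    have hodd1 := had_odd hO hA hev
    have hh := had_smooth hO hA
    -- `A (√s, w) = A (0, w) + s • had (had A) (√s, w)`
    have e1 : (fun x => A (√(s x), w x)) =ᶠ[𝓝 x]
        fun x => A (0, w x) + s x • had (had A) (√(s x), w x) := by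
      filter_upwards [hΩ.mem_nhds hx] with y hy
      rw [had_spec hO hA (√(s y)) (hwO y hy), had_spec hO hh (√(s y)) (hwO y hy),
        zero_of_odd hodd1 _ (hwO y hy), zero_add, smul_smul, Real.mul_self_sqrt (hs0 y hy)]
    refine HasFDerivAt.congr_of_eventuallyEq ?_ e1
    rw [hd0, smul_zero, ← h0, Real.sqrt_zero]
    have e2 : ((0 : X →L[ℝ] ℝ).smulRight (had (dr A) ((0 : ℝ), w x)) +
        (dw A ((0 : ℝ), w x)).comp (fderiv ℝ w x)) =
        (dw A ((0 : ℝ), w x)).comp (fderiv ℝ w x) + 0 := by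
      ext v
      simp
    rw [e2]
    refine ((hasDw hO hA 0 (hwO x hx)).comp x hwx).add ?_
    -- the product of `s` and a continuous function
    have hcont : ContinuousAt (fun y => had (had A) (√(s y), w y)) x := by
      have h1 : ContinuousAt (had (had A)) (√(s x), w x) :=
        ((had_smooth hO hh).contDiffAt
          ((open_prod hO).mem_nhds ⟨mem_univ _, hwO x hx⟩)).continuousAt
      exact ContinuousAt.comp (f := fun y => (√(s y), w y)) h1
        (hsx.continuousAt.sqrt.prodMk hwx.continuousAt)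
    rw [hasFDerivAt_iff_isLittleO_nhds_zero]
    have h1 := (hasFDerivAt_iff_isLittleO_nhds_zero.1 hsx)
    rw [hd0] at h1
    have h2 : (fun h : X => had (had A) (√(s (x + h)), w (x + h))) =O[𝓝 0] fun _ => (1 : ℝ) := by
      have h3 : Filter.Tendsto (fun h : X => had (had A) (√(s (x + h)), w (x + h))) (𝓝 0)
          (𝓝 (had (had A) (√(s x), w x))) := by
        have h4 : Filter.Tendsto (fun h : X => x + h) (𝓝 0) (𝓝 x) := by
          have : Continuous fun h : X => x + h := by fun_prop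
          have h5 := this.tendsto 0
          rwa [add_zero] at h5
        exact hcont.tendsto.comp h4
      exact h3.isBigO_one ℝ
    have h3 := h1.norm_right.smul_isBigO h2
    refine Asymptotics.IsLittleO.of_norm_right (h3.congr (fun h => ?_) fun h => ?_)
    · simp [← h0]
    · simp
  · -- positive values of `s`
    have hr : 0 < √(s x) := Real.sqrt_pos.2 h0
    have h1 : HasFDerivAt (fun y => √(s y)) ((1 / (2 * √(s x))) • fderiv ℝ s x) x :=
      hsx.sqrt h0.ne'
    have h2 : HasFDerivAt (fun y => ((√(s y), w y) : ℝ × W))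
        (((1 / (2 * √(s x))) • fderiv ℝ s x).prod (fderiv ℝ w x)) x := h1.prodMk hwx
    have h3 := (hasF hO hA (√(s x)) (hwO x hx)).comp x h2
    refine h3.congr_fderiv ?_
    ext v
    have e3 : dr A (√(s x), w x) = √(s x) • had (dr A) (√(s x), w x) := by
      rw [had_spec hO hA2 (√(s x)) (hwO x hx), zero_of_odd hodd _ (hwO x hx), zero_add]
    have e4 : fderiv ℝ A (√(s x), w x) ((1 / (2 * √(s x)) * fderiv ℝ s x v, fderiv ℝ w x v)) =
        (1 / (2 * √(s x)) * fderiv ℝ s x v) • dr A (√(s x), w x) +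
          dw A (√(s x), w x) (fderiv ℝ w x v) := by
      have e5 : ((1 / (2 * √(s x)) * fderiv ℝ s x v, fderiv ℝ w x v) : ℝ × W) =
          (1 / (2 * √(s x)) * fderiv ℝ s x v) • ((1, 0) : ℝ × W) + (0, fderiv ℝ w x v) := by
        ext <;> simp
      rw [e5, map_add, map_smul]
      rfl
    show fderiv ℝ A (√(s x), w x) ((1 / (2 * √(s x)) * fderiv ℝ s x v, fderiv ℝ w x v)) =
      (1 / 2 * fderiv ℝ s x v) • had (dr A) (√(s x), w x) +
        dw A (√(s x), w x) (fderiv ℝ w x v)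
    rw [e4, e3, smul_smul]
    congr 2
    field_simp

theorem contDiffOn_comp_sqrt_nat (hO : IsOpen O) (hΩ : IsOpen Ω) (hs : ContDiffOn ℝ ∞ s Ω)
    (hs0 : ∀ x ∈ Ω, 0 ≤ s x) (hw : ContDiffOn ℝ ∞ w Ω) (hwO : ∀ x ∈ Ω, w x ∈ O) (n : ℕ) :
    ∀ (V : Type) [NormedAddCommGroup V] [NormedSpace ℝ V] [CompleteSpace V] (A : ℝ × W → V),
      ContDiffOn ℝ ∞ A (univ ×ˢ O) → (∀ r, ∀ w ∈ O, A (-r, w) = A (r, w)) →
      ContDiffOn ℝ n (fun x => A (√(s x), w x)) Ω := by
  induction n with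
  | zero =>
    intro V _ _ _ A hA hev
    rw [Nat.cast_zero, contDiffOn_zero]
    intro x hx
    exact (hasF_comp hO hΩ hs hs0 hw hwO hA hev x hx).continuousAt.continuousWithinAt
  | succ n ih =>
    intro V _ _ _ A hA hev
    have hd := fun x hx => hasF_comp hO hΩ hs hs0 hw hwO hA hev x hx
    have h1 : ContDiffOn ℝ ((n : ℕ∞ω) + 1) (fun x => A (√(s x), w x)) Ω := by
      rw [contDiffOn_succ_iff_fderiv_of_isOpen hΩ]
      refine ⟨fun x hx => (hd x hx).differentiableAt.differentiableWithinAt, by simp, ?_⟩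
      have h2 : ContDiffOn ℝ n (fun x => ((1 / 2 : ℝ) • fderiv ℝ s x).smulRight
          (had (dr A) (√(s x), w x)) + (dw A (√(s x), w x)).comp (fderiv ℝ w x)) Ω := by
        have a1 : ContDiffOn ℝ n (fun x => (1 / 2 : ℝ) • fderiv ℝ s x) Ω :=
          (hs.fderiv_of_isOpen hΩ (m := n) (by exact_mod_cast le_top)).const_smul (1 / 2 : ℝ)
        have a2 := ih V (had (dr A)) (had_smooth hO (dr_smooth hO hA))
          (had_even hO (dr_smooth hO hA) (dr_odd hO hA hev))
        have a3 := ih (W →L[ℝ] V) (dw A) (dw_smooth hO hA) (dw_even hO hA hev)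
        have a4 : ContDiffOn ℝ n (fun x => fderiv ℝ w x) Ω :=
          hw.fderiv_of_isOpen hΩ (m := n) (by exact_mod_cast le_top)
        exact (a1.smulRight a2).add (a3.clm_comp a4)
      exact h2.congr fun x hx => (hd x hx).fderiv
    simpa using h1

/-- **Even functions of a square root.** -/
theorem contDiffOn_comp_sqrt (hO : IsOpen O) (hΩ : IsOpen Ω) (hs : ContDiffOn ℝ ∞ s Ω)
    (hs0 : ∀ x ∈ Ω, 0 ≤ s x) (hw : ContDiffOn ℝ ∞ w Ω) (hwO : ∀ x ∈ Ω, w x ∈ O)
    {V : Type} [NormedAddCommGroup V] [NormedSpace ℝ V] [CompleteSpace V] {A : ℝ × W → V}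
    (hA : ContDiffOn ℝ ∞ A (univ ×ˢ O)) (hev : ∀ r, ∀ w ∈ O, A (-r, w) = A (r, w)) :
    ContDiffOn ℝ ∞ (fun x => A (√(s x), w x)) Ω :=
  contDiffOn_infty.2 fun n => contDiffOn_comp_sqrt_nat hO hΩ hs hs0 hw hwO n V A hA hev

end comp

end Pool.Agent.Q191.RT
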