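import Pool.Agent.Q191.RT.Alg
import Pool.Agent.Q191.RT.Even

/-!
# Smoothness of the shifted maps
-/

set_option autoImplicit false

open Set Metric Topology Q170.SC
open scoped ContDiff

namespace Pool.Agent.Q191.RT

variable {n : ℕ} (i : Fin n)

theorem sec_smooth : ContDiff ℝ ∞ (fun p : ℝ × E n => sec i p.1 p.2) := by
  refine ContDiff.prodMk ?_ ?_
  · rw [contDiff_pi]
    intro j
    by_cases h : j = i
    · subst h
      simp only [Function.update_self]
      exact contDiff_fst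
    · simp only [Function.update_of_ne h]
      fun_prop
  · rw [contDiff_pi]
    intro j
    by_cases h : j = i
    · subst h
      simp only [Function.update_self]
      exact contDiff_const
    · simp only [Function.update_of_ne h]
      fun_prop

theorem cmul_smooth (a b : ℝ) : ContDiff ℝ ∞ (cmul i a b) := by
  refine ContDiff.prodMk ?_ ?_
  · rw [contDiff_pi]
    intro j
    by_cases h : j = i
    · subst h
      simp only [Function.update_self]
      fun_prop
    · simp only [Function.update_of_ne h]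
      fun_prop
  · rw [contDiff_pi]
    intro j
    by_cases h : j = i
    · subst h
      simp only [Function.update_self]
      fun_prop
    · simp only [Function.update_of_ne h]
      fun_prop

theorem rad_smooth : ContDiff ℝ ∞ (rad i : E n → ℝ) := by
  unfold rad
  fun_prop

/-- reflection of the section -/
theorem sec_neg (r : ℝ) (z : E n) : sec i (-r) z = cmul i (-1) 0 (sec i r z) := by
  refine ext_i i ?_ ?_ (fun j h => ?_) (fun j h => ?_)
  · simp
  · simp
  · rw [cmul_fst' i _ _ _ h, sec_fst' i _ _ h, sec_fst' i _ _ h]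
  · rw [cmul_snd' i _ _ _ h, sec_snd' i _ _ h, sec_snd' i _ _ h]

/-- **Families of shifted maps are smooth.** -/
theorem shift_family {P : Type} [NormedAddCommGroup P] [NormedSpace ℝ P] [FiniteDimensional ℝ P]
    {O : Set P} (hO : IsOpen O) (Φ : P → E n → E n)
    (hΦ : ContDiffOn ℝ ∞ (fun p : P × E n => Φ p.1 p.2) (O ×ˢ univ))
    (hc : ∀ p ∈ O, Comm i (Φ p)) :
    ContDiffOn ℝ ∞ (fun q : (ℝ × P) × E n => shift i (q.1.1 ^ 2) (Φ q.1.2) q.2)
      ((univ ×ˢ O) ×ˢ univ) := by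
  let O' : Set (P × E n) := O ×ˢ univ
  have hO' : IsOpen O' := hO.prod isOpen_univ
  let Ω : Set ((ℝ × P) × E n) := (univ ×ˢ O) ×ˢ univ
  have hΩ : IsOpen Ω := (isOpen_univ.prod hO).prod isOpen_univ
  let s : (ℝ × P) × E n → ℝ := fun q => rad i q.2 + q.1.1 ^ 2
  have hs : ContDiffOn ℝ ∞ s Ω := by
    have : ContDiff ℝ ∞ s := ((rad_smooth i).comp contDiff_snd).add (by fun_prop)
    exact this.contDiffOn
  have hs0 : ∀ x ∈ Ω, 0 ≤ s x := by
    intro x _
    have := rad_nonneg i x.2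
    positivity
  let w : (ℝ × P) × E n → P × E n := fun q => (q.1.2, q.2)
  have hw : ContDiffOn ℝ ∞ w Ω := by
    have : ContDiff ℝ ∞ w := by fun_prop
    exact this.contDiffOn
  have hwO : ∀ x ∈ Ω, w x ∈ O' := fun x hx => ⟨hx.1.2, mem_univ _⟩
  let A : ℝ × (P × E n) → E n := fun y => Φ y.2.1 (sec i y.1 y.2.2)
  have hA : ContDiffOn ℝ ∞ A (univ ×ˢ O') := by
    have h1 : ContDiff ℝ ∞ (fun y : ℝ × (P × E n) => ((y.2.1, sec i y.1 y.2.2) : P × E n)) := by
      have h2 : ContDiff ℝ ∞ (fun y : ℝ × (P × E n) => ((y.1, y.2.2) : ℝ × E n)) := by fun_prop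
      have h3 : ContDiff ℝ ∞ (fun y : ℝ × (P × E n) => y.2.1) := by fun_prop
      exact h3.prodMk ((sec_smooth i).comp h2)
    exact hΦ.comp h1.contDiffOn fun y hy => ⟨hy.2.1, mem_univ _⟩
  have hneg : ∀ r, ∀ w ∈ O', A (-r, w) = cmul i (-1) 0 (A (r, w)) := by
    rintro r ⟨p, z⟩ ⟨hp, -⟩
    show Φ p (sec i (-r) z) = cmul i (-1) 0 (Φ p (sec i r z))
    rw [sec_neg, hc p hp _ _ (by norm_num)]
  let a : ℝ × (P × E n) → ℝ := fun y => (A y).1 i
  let b : ℝ × (P × E n) → ℝ := fun y => (A y).2 i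
  let H : ℝ × (P × E n) → E n := fun y => cmul i 0 0 (A y)
  have ha : ContDiffOn ℝ ∞ a (univ ×ˢ O') := by
    have : ContDiff ℝ ∞ (fun z : E n => z.1 i) := by fun_prop
    exact this.comp_contDiffOn hA
  have hb : ContDiffOn ℝ ∞ b (univ ×ˢ O') := by
    have : ContDiff ℝ ∞ (fun z : E n => z.2 i) := by fun_prop
    exact this.comp_contDiffOn hA
  have hH : ContDiffOn ℝ ∞ H (univ ×ˢ O') := (cmul_smooth i 0 0).comp_contDiffOn hA
  have ha1 : ∀ r, ∀ w ∈ O', a (-r, w) = -a (r, w) := by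
    intro r w hw
    show (A (-r, w)).1 i = -(A (r, w)).1 i
    rw [hneg r w hw]
    simp
  have hb1 : ∀ r, ∀ w ∈ O', b (-r, w) = -b (r, w) := by
    intro r w hw
    show (A (-r, w)).2 i = -(A (r, w)).2 i
    rw [hneg r w hw]
    simp
  have hH1 : ∀ r, ∀ w ∈ O', H (-r, w) = H (r, w) := by
    intro r w hw
    show cmul i 0 0 (A (-r, w)) = cmul i 0 0 (A (r, w))
    rw [hneg r w hw, cmul_cmul]
    simp
  have k1 := contDiffOn_comp_sqrt hO' hΩ hs hs0 hw hwO (had_smooth hO' ha) (had_even hO' ha ha1)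
  have k2 := contDiffOn_comp_sqrt hO' hΩ hs hs0 hw hwO (had_smooth hO' hb) (had_even hO' hb hb1)
  have k3 := contDiffOn_comp_sqrt hO' hΩ hs hs0 hw hwO hH hH1
  let e₁ : E n := (Pi.single i 1, 0)
  let e₂ : E n := (0, Pi.single i 1)
  have key : ContDiffOn ℝ ∞ (fun q : (ℝ × P) × E n => H (√(s q), w q) +
      (q.2.1 i * had a (√(s q), w q) - q.2.2 i * had b (√(s q), w q)) • e₁ +
      (q.2.2 i * had a (√(s q), w q) + q.2.1 i * had b (√(s q), w q)) • e₂) Ω := by
    have x1 : ContDiffOn ℝ ∞ (fun q : (ℝ × P) × E n => q.2.1 i) Ω := by fun_prop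
    have x2 : ContDiffOn ℝ ∞ (fun q : (ℝ × P) × E n => q.2.2 i) Ω := by fun_prop
    exact (k3.add (((x1.mul k1).sub (x2.mul k2)).smul contDiffOn_const)).add
      (((x2.mul k1).add (x1.mul k2)).smul contDiffOn_const)
  refine key.congr fun q hq => ?_
  have hwq := hwO q hq
  have ea : a (√(s q), w q) = √(s q) * had a (√(s q), w q) := by
    rw [had_spec hO' ha (√(s q)) hwq, zero_of_odd ha1 _ hwq, zero_add, smul_eq_mul]
  have eb : b (√(s q), w q) = √(s q) * had b (√(s q), w q) := by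
    rw [had_spec hO' hb (√(s q)) hwq, zero_of_odd hb1 _ hwq, zero_add, smul_eq_mul]
  obtain ⟨d1, d2⟩ := div_mul_sqrt i (z := q.2) (c := q.1.1 ^ 2) (sq_nonneg _)
  have ha0 : (Φ q.1.2 (sec i (√(rad i q.2 + q.1.1 ^ 2)) q.2)).1 i =
      √(rad i q.2 + q.1.1 ^ 2) * had a (√(s q), w q) := ea
  have hb0 : (Φ q.1.2 (sec i (√(rad i q.2 + q.1.1 ^ 2)) q.2)).2 i =
      √(rad i q.2 + q.1.1 ^ 2) * had b (√(s q), w q) := eb
  refine ext_i i ?_ ?_ (fun j h => ?_) (fun j h => ?_)
  · show (shift i (q.1.1 ^ 2) (Φ q.1.2) q.2).1 i = (cmul i 0 0 (A (√(s q), w q))).1 i +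
      (q.2.1 i * had a (√(s q), w q) - q.2.2 i * had b (√(s q), w q)) *
        (Pi.single i (1 : ℝ) : Fin n → ℝ) i +
      (q.2.2 i * had a (√(s q), w q) + q.2.1 i * had b (√(s q), w q)) * 0
    rw [shift, cmul_fst, cmul_fst, ha0, hb0, Pi.single_eq_same]
    linear_combination had a (√(s q), w q) * d1 - had b (√(s q), w q) * d2
  · show (shift i (q.1.1 ^ 2) (Φ q.1.2) q.2).2 i = (cmul i 0 0 (A (√(s q), w q))).2 i +
      (q.2.1 i * had a (√(s q), w q) - q.2.2 i * had b (√(s q), w q)) * 0 +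
      (q.2.2 i * had a (√(s q), w q) + q.2.1 i * had b (√(s q), w q)) *
        (Pi.single i (1 : ℝ) : Fin n → ℝ) i
    rw [shift, cmul_snd, cmul_snd, ha0, hb0, Pi.single_eq_same]
    linear_combination had a (√(s q), w q) * d2 + had b (√(s q), w q) * d1
  · show (shift i (q.1.1 ^ 2) (Φ q.1.2) q.2).1 j = (cmul i 0 0 (A (√(s q), w q))).1 j +
      (q.2.1 i * had a (√(s q), w q) - q.2.2 i * had b (√(s q), w q)) *
        (Pi.single i (1 : ℝ) : Fin n → ℝ) j +
      (q.2.2 i * had a (√(s q), w q) + q.2.1 i * had b (√(s q), w q)) * 0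
    rw [shift, cmul_fst' i _ _ _ h, cmul_fst' i _ _ _ h, Pi.single_eq_of_ne h]
    simp only [mul_zero, add_zero]
    rfl
  · show (shift i (q.1.1 ^ 2) (Φ q.1.2) q.2).2 j = (cmul i 0 0 (A (√(s q), w q))).2 j +
      (q.2.1 i * had a (√(s q), w q) - q.2.2 i * had b (√(s q), w q)) * 0 +
      (q.2.2 i * had a (√(s q), w q) + q.2.1 i * had b (√(s q), w q)) *
        (Pi.single i (1 : ℝ) : Fin n → ℝ) j
    rw [shift, cmul_snd' i _ _ _ h, cmul_snd' i _ _ _ h, Pi.single_eq_of_ne h]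
    simp only [mul_zero, add_zero]
    rfl

/-- the path of the shifted maps is smooth -/
theorem shift_path {f : E n → E n} (hf : ContDiff ℝ ∞ f) (hcf : Comm i f) :
    ContDiff ℝ ∞ (fun q : ℝ × E n => shift i (q.1 ^ 2) f q.2) := by
  have h := shift_family i (P := ℝ) isOpen_univ (fun _ => f)
    ((hf.comp contDiff_snd).contDiffOn) (fun _ _ => hcf)
  have h1 : ContDiff ℝ ∞ (fun q : (ℝ × ℝ) × E n => shift i (q.1.1 ^ 2) f q.2) := by
    rw [← contDiffOn_univ]
    simpa using h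
  have h2 : ContDiff ℝ ∞ (fun q : ℝ × E n => (((q.1, (0:ℝ)), q.2) : (ℝ × ℝ) × E n)) := by fun_prop
  exact h1.comp h2

/-- the shifted map is smooth -/
theorem shift_smooth {c : ℝ} (hc : 0 ≤ c) {f : E n → E n} (hf : ContDiff ℝ ∞ f)
    (hcf : Comm i f) : ContDiff ℝ ∞ (shift i c f) := by
  have h := shift_family i (P := ℝ) isOpen_univ (fun _ => f)
    ((hf.comp contDiff_snd).contDiffOn) (fun _ _ => hcf)
  have h1 : ContDiff ℝ ∞ (fun q : (ℝ × ℝ) × E n => shift i (q.1.1 ^ 2) f q.2) := by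
    rw [← contDiffOn_univ]
    simpa using h
  have h2 : ContDiff ℝ ∞ (fun z : E n => (((√c, (0:ℝ)), z) : (ℝ × ℝ) × E n)) := by fun_prop
  have h3 := h1.comp h2
  have e : (fun q : (ℝ × ℝ) × E n => shift i (q.1.1 ^ 2) f q.2) ∘
      (fun z : E n => (((√c, (0:ℝ)), z) : (ℝ × ℝ) × E n)) = shift i c f := by
    funext z
    simp only [Function.comp, Real.sq_sqrt hc]
  rwa [e] at h3

end Pool.Agent.Q191.RT
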