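import Pool.Agent.Q191.RT.Main

/-!
# Maps keeping the radius of one coordinate, and isotopies to the identity
-/

set_option autoImplicit false

open Set Metric Topology Q170.SC Q196.SL
open scoped ContDiff

namespace Pool.Agent.Q191.RT

variable {n : ℕ} {i : Fin n}

theorem omega_nondeg' {u v : E n} (h : ∀ w, omega u w = omega v w) : u = v := by
  have h1 : u + (-1 : ℝ) • v = 0 := by
    refine omega_nondeg _ fun w => ?_
    rw [omega_add_left, omega_smul_left, h w]
    ring
  have h2 : u = -((-1 : ℝ) • v) := eq_neg_of_add_eq_zero_left h1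
  rw [h2]
  simp

/-- a map keeping the radius keeps the generator of the rotations -/
theorem gen_of_rad {f : SympCt n} (h : ∀ z, rad i (f.map z) = rad i z) (z : E n) :
    fderiv ℝ f.map z (gen i z) = gen i (f.map z) := by
  have hsm := SY.map_smooth f
  have hd : Differentiable ℝ f.map := hsm.differentiable (by simp)
  have h1 : (drad i (f.map z)).comp (fderiv ℝ f.map z) = drad i z := by
    have a1 := (hasF_rad i (f.map z)).comp z (hd z).hasFDerivAt
    have a2 : (rad i) ∘ f.map = rad i := funext h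
    rw [a2] at a1
    exact a1.unique (hasF_rad i z)
  obtain ⟨b1, _⟩ := SY.deriv_inv f (f.map z)
  rw [SY.inv_map_map] at b1
  refine omega_nondeg' fun w => ?_
  have b2 : fderiv ℝ f.map z (fderiv ℝ f⁻¹.map (f.map z) w) = w := DFunLike.congr_fun b1 w
  have a3 := f.2.1.form z (gen i z) (fderiv ℝ f⁻¹.map (f.map z) w)
  have a4 : omega (fderiv ℝ f.map z (gen i z)) w = omega (gen i z) (fderiv ℝ f⁻¹.map (f.map z) w) := by
    rw [← a3]
    show _ = omega (fderiv ℝ f.map z (gen i z)) (fderiv ℝ f.map z (fderiv ℝ f⁻¹.map (f.map z) w))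
    rw [b2]
  rw [a4]
  have a5 := omega_gen i z (fderiv ℝ f⁻¹.map (f.map z) w)
  have a6 := omega_gen i (f.map z) w
  have a7 : drad i z (fderiv ℝ f⁻¹.map (f.map z) w) = drad i (f.map z) w := by
    rw [← h1]
    show drad i (f.map z) (fderiv ℝ f.map z (fderiv ℝ f⁻¹.map (f.map z) w)) = _
    rw [b2]
  linarith

theorem cmul_cos_zero (z : E n) : cmul i (Real.cos 0) (Real.sin 0) z = z := by
  rw [Real.cos_zero, Real.sin_zero, cmul_one]

theorem rot_add (s t : ℝ) (z : E n) : cmul i (Real.cos s) (Real.sin s)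
    (cmul i (Real.cos t) (Real.sin t) z) = cmul i (Real.cos (s + t)) (Real.sin (s + t)) z := by
  rw [cmul_cmul, Real.cos_add, Real.sin_add]
  congr 1
  ring

/-- the derivative of the rotations at every time -/
theorem hasDeriv_rot' (t : ℝ) (z : E n) :
    HasDerivAt (fun s : ℝ => cmul i (Real.cos s) (Real.sin s) z)
      (gen i (cmul i (Real.cos t) (Real.sin t) z)) t := by
  have h1 := hasDeriv_rot i (cmul i (Real.cos t) (Real.sin t) z)
  have h2 : HasDerivAt (fun s : ℝ => s - t) 1 t := (hasDerivAt_id t).sub_const t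
  have h3 : HasDerivAt (fun s : ℝ => cmul i (Real.cos s) (Real.sin s)
      (cmul i (Real.cos t) (Real.sin t) z)) (gen i (cmul i (Real.cos t) (Real.sin t) z)) (t - t) := by
    rw [sub_self]
    exact h1
  have h4 := HasDerivAt.scomp (h := fun s : ℝ => s - t) t h3 h2
  rw [one_smul] at h4
  refine h4.congr_of_eventuallyEq (Filter.Eventually.of_forall fun s => ?_)
  show _ = cmul i (Real.cos (s - t)) (Real.sin (s - t)) (cmul i (Real.cos t) (Real.sin t) z)
  rw [rot_add, sub_add_cancel]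

/-- the rotation by the angle `s` as a continuous linear map -/
noncomputable def rotL (i : Fin n) (s : ℝ) : E n →L[ℝ] E n :=
  ContinuousLinearMap.id ℝ (E n) +
    (((Real.cos s - 1) • ((ContinuousLinearMap.proj i).comp
        (ContinuousLinearMap.fst ℝ (Fin n → ℝ) (Fin n → ℝ))) -
      Real.sin s • ((ContinuousLinearMap.proj i).comp
        (ContinuousLinearMap.snd ℝ (Fin n → ℝ) (Fin n → ℝ)))).smulRight (e1 i)) +
    ((Real.sin s • ((ContinuousLinearMap.proj i).comp
        (ContinuousLinearMap.fst ℝ (Fin n → ℝ) (Fin n → ℝ))) +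
      (Real.cos s - 1) • ((ContinuousLinearMap.proj i).comp
        (ContinuousLinearMap.snd ℝ (Fin n → ℝ) (Fin n → ℝ)))).smulRight (e2 i))

theorem rotL_apply (s : ℝ) (z : E n) : rotL i s z = cmul i (Real.cos s) (Real.sin s) z := by
  rw [rot_eq]
  rfl

/-- curves with the equation of the rotations -/
theorem eq_rot {u : ℝ → E n} (hu : ∀ t, HasDerivAt u (gen i (u t)) t) (t : ℝ) :
    u t = cmul i (Real.cos t) (Real.sin t) (u 0) := by
  let v : ℝ → E n := fun s => u s + ((Real.cos s - 1) * (u s).1 i + Real.sin s * (u s).2 i) • e1 i +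
    (-Real.sin s * (u s).1 i + (Real.cos s - 1) * (u s).2 i) • e2 i
  have hv : ∀ s, v s = cmul i (Real.cos (-s)) (Real.sin (-s)) (u s) := by
    intro s
    rw [rot_eq, Real.cos_neg, Real.sin_neg]
    show u s + ((Real.cos s - 1) * (u s).1 i + Real.sin s * (u s).2 i) • e1 i +
      (-Real.sin s * (u s).1 i + (Real.cos s - 1) * (u s).2 i) • e2 i = _
    congr 3
    ring
  have hx : ∀ s, HasDerivAt (fun s => (u s).1 i) (-(u s).2 i) s := by
    intro s
    have h1 := (hasF_fst i (u s)).comp_hasDerivAt s (hu s)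
    refine h1.congr_deriv ?_
    show (gen i (u s)).1 i = -(u s).2 i
    simp [gen, e1, e2]
  have hy : ∀ s, HasDerivAt (fun s => (u s).2 i) ((u s).1 i) s := by
    intro s
    have h1 := (hasF_snd i (u s)).comp_hasDerivAt s (hu s)
    refine h1.congr_deriv ?_
    show (gen i (u s)).2 i = (u s).1 i
    simp [gen, e1, e2]
  have hvd : ∀ s, HasDerivAt v 0 s := by
    intro s
    have c0 : HasDerivAt (fun s => Real.cos s - 1) (-Real.sin s) s :=
      (Real.hasDerivAt_cos s).sub_const 1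
    have s0 : HasDerivAt Real.sin (Real.cos s) s := Real.hasDerivAt_sin s
    have h2 := ((c0.mul (hx s)).add (s0.mul (hy s))).smul_const (e1 i)
    have h3 := ((s0.neg.mul (hx s)).add (c0.mul (hy s))).smul_const (e2 i)
    have h4 := ((hu s).add h2).add h3
    refine h4.congr_deriv ?_
    unfold gen
    rw [add_assoc, add_add_add_comm, ← add_smul, ← add_smul]
    simp only [Pi.neg_apply]
    have z1 : -(u s).2 i + (-Real.sin s * (u s).1 i + (Real.cos s - 1) * -(u s).2 i +
        (Real.cos s * (u s).2 i + Real.sin s * (u s).1 i)) = 0 := by ring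
    have z2 : (u s).1 i + (-Real.cos s * (u s).1 i + -Real.sin s * -(u s).2 i +
        (-Real.sin s * (u s).2 i + (Real.cos s - 1) * (u s).1 i)) = 0 := by ring
    rw [z1, z2]
    simp
  have hc := is_const_of_deriv_eq_zero (fun s => (hvd s).differentiableAt)
    (fun s => (hvd s).deriv) t 0
  rw [hv, hv, neg_zero, cmul_cos_zero] at hc
  rw [← hc, rot_add, add_neg_cancel, cmul_cos_zero]

/-- **Maps keeping the radius of one coordinate commute with its rotations.** -/
theorem comm_iff_rad (f : SympCt n) : Comm i f.map ↔ ∀ z, rad i (f.map z) = rad i z := by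
  refine ⟨fun h => rad_map h, fun h a b hab z => ?_⟩
  have hd : Differentiable ℝ f.map := (SY.map_smooth f).differentiable (by simp)
  have h1 : ∀ t, HasDerivAt (fun t : ℝ => f.map (cmul i (Real.cos t) (Real.sin t) z))
      (gen i (f.map (cmul i (Real.cos t) (Real.sin t) z))) t := by
    intro t
    rw [← gen_of_rad h]
    exact (hd _).hasFDerivAt.comp_hasDerivAt t (hasDeriv_rot' t z)
  have h2 := fun t => eq_rot h1 t
  obtain ⟨t, ht1, ht2⟩ : ∃ t : ℝ, Real.cos t = a ∧ Real.sin t = b := by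
    have hn : ‖(⟨a, b⟩ : ℂ)‖ = 1 := by
      rw [Complex.norm_def, Complex.normSq_mk, ← sq, ← sq, hab, Real.sqrt_one]
    refine ⟨Complex.arg ⟨a, b⟩, ?_, ?_⟩
    · have := Complex.norm_mul_cos_arg (⟨a, b⟩ : ℂ)
      rwa [hn, one_mul] at this
    · have := Complex.norm_mul_sin_arg (⟨a, b⟩ : ℂ)
      rwa [hn, one_mul] at this
  have h3 := h2 t
  simp only [cmul_cos_zero] at h3
  rw [ht1, ht2] at h3
  exact h3

/-- conjugation of an element of `G` with any symplectic diffeomorphism -/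
noncomputable def conj {A : Equiv.Perm (E n)} (hA : IsSymp A) (f : SympCt n) : SympCt n :=
  ⟨A * f.perm * A⁻¹, (hA.mul f.2.1).mul hA.inv, by
    obtain ⟨R, _, hR⟩ := SY.exists_ball f
    refine ⟨A '' closedBall 0 R, (isCompact_closedBall _ _).image hA.smooth.continuous, ?_⟩
    intro z hz
    have h1 : A⁻¹ z ∉ closedBall (0 : E n) R := by
      intro h
      exact hz ⟨_, h, A.apply_symm_apply z⟩
    show A (f.perm (A⁻¹ z)) = z
    rw [hR _ h1]
    exact A.apply_symm_apply z⟩

theorem conj_map {A : Equiv.Perm (E n)} (hA : IsSymp A) (f : SympCt n) (z : E n) :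
    (conj hA f).map z = A (f.map (A.symm z)) := rfl

theorem conj_supp {A : Equiv.Perm (E n)} (hA : IsSymp A) (f : SympCt n) {K : Set (E n)}
    (hf : ∀ z, z ∉ K → f.map z = z) : SuppIn (A '' K) (conj hA f).perm := by
  intro z hz
  have h1 : A.symm z ∉ K := by
    intro h
    exact hz ⟨_, h, A.apply_symm_apply z⟩
  show (conj hA f).map z = z
  rw [conj_map, hf _ h1, A.apply_symm_apply]

/-- a smooth path of conjugates -/
theorem conj_path {A : Equiv.Perm (E n)} (hA : IsSymp A) (Ψ : ℝ → SympCt n)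
    (hΨ : ContDiff ℝ ∞ (fun p : ℝ × E n => (Ψ p.1).map p.2)) :
    ContDiff ℝ ∞ (fun p : ℝ × E n => (conj hA (Ψ p.1)).map p.2) := by
  have e : (fun p : ℝ × E n => (conj hA (Ψ p.1)).map p.2) =
      fun p : ℝ × E n => A ((fun q : ℝ × E n => (Ψ q.1).map q.2) (p.1, A.symm p.2)) := by
    funext p
    rw [conj_map]
  rw [e]
  have h1 : ContDiff ℝ ∞ (fun p : ℝ × E n => ((p.1, A.symm p.2) : ℝ × E n)) :=
    contDiff_fst.prodMk (hA.smooth_symm.comp contDiff_snd)
  exact hA.smooth.comp (hΨ.comp h1)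

/-- the isotopy for the maps keeping the radius -/
theorem exists_isotopy_rad {g : SympCt n} (hg : ∀ z, rad i (g.map z) = rad i z) :
    ∃ (R : ℝ) (Ψ : ℝ → SympCt n), ContDiff ℝ ∞ (fun p : ℝ × E n => (Ψ p.1).map p.2) ∧
      (∀ t z, z ∉ closedBall (0 : E n) R → (Ψ t).map z = z) ∧
      (∀ t z, rad i ((Ψ t).map z) = rad i z) ∧ Ψ 0 = g ∧ Ψ 1 = 1 := by
  have hgc : Comm i g.map := (comm_iff_rad g).2 hg
  obtain ⟨R, hR0, hR⟩ := SY.exists_ball g
  refine ⟨R, fun t => (kap i (t * (R + 1)) ⟨g, hgc⟩).1, ?_, ?_, ?_, ?_, ?_⟩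
  · have h1 : ContDiff ℝ ∞ (fun p : ℝ × E n => ((p.1 * (R + 1), p.2) : ℝ × E n)) := by fun_prop
    have h2 := (kap_path i ⟨g, hgc⟩).comp h1
    simp only [Function.comp_def] at h2
    exact h2
  · intro t z hz
    exact shift_supp i (sq_nonneg _) hR z hz
  · intro t z
    exact rad_map (kap i (t * (R + 1)) ⟨g, hgc⟩).2 z
  · show (kap i (0 * (R + 1)) ⟨g, hgc⟩).1 = g
    rw [zero_mul, kap_zero]
  · refine SY.ext_map fun z => ?_
    refine shift_trivial i hR ?_ z
    rw [one_mul, abs_of_pos (by linarith)]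
    linarith

/-- **Isotopy to the identity.** -/
theorem exists_isotopy_A {A : Equiv.Perm (E n)} (hA : IsSymp A) {f : SympCt n}
    (hf : ∀ z, rad i (A.symm (f.map z)) = rad i (A.symm z)) :
    ∃ (K : Set (E n)) (Φ : ℝ → SympCt n), IsCompact K ∧
      ContDiff ℝ ∞ (fun p : ℝ × E n => (Φ p.1).map p.2) ∧ (∀ t, SuppIn K (Φ t).perm) ∧
      (∀ t z, rad i (A.symm ((Φ t).map z)) = rad i (A.symm z)) ∧ Φ 0 = f ∧ Φ 1 = 1 := by
  have hg : ∀ z, rad i ((conj (A := A⁻¹) hA.inv f).map z) = rad i z := by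
    intro z
    rw [conj_map]
    show rad i (A.symm (f.map (A z))) = rad i z
    rw [hf, A.symm_apply_apply]
  obtain ⟨R, Ψ, h1, h2, h3, h4, h5⟩ := exists_isotopy_rad hg
  refine ⟨A '' closedBall 0 R, fun t => conj hA (Ψ t),
    (isCompact_closedBall _ _).image hA.smooth.continuous, conj_path hA Ψ h1,
    fun t => conj_supp hA (Ψ t) (h2 t), ?_, ?_, ?_⟩
  · intro t z
    rw [conj_map, A.symm_apply_apply]
    exact h3 t _
  · refine SY.ext_map fun z => ?_
    show (conj hA (Ψ 0)).map z = f.map z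
    rw [conj_map, h4, conj_map]
    show A (A.symm (f.map (A (A.symm z)))) = f.map z
    rw [A.apply_symm_apply, A.apply_symm_apply]
  · refine SY.ext_map fun z => ?_
    show (conj hA (Ψ 1)).map z = z
    rw [conj_map, h5, SY.one_map, A.apply_symm_apply]

variable (i)

open Classical in
/-- the contraction, extended to all of `G` by `1` -/
noncomputable def ka (t : ℝ) (f : SympCt n) : SympCt n :=
  if h : f ∈ Inv i then (kap i t ⟨f, h⟩).1 else 1

theorem ka_of {t : ℝ} {f : SympCt n} (h : f ∈ Inv i) : ka i t f = (kap i t ⟨f, h⟩).1 := dif_pos h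

theorem ka_map {t : ℝ} {f : SympCt n} (h : f ∈ Inv i) (z : E n) :
    (ka i t f).map z = shift i (t ^ 2) f.map z := by
  rw [ka_of i h]
  rfl

theorem ka_mem {t : ℝ} {f : SympCt n} (h : f ∈ Inv i) : ka i t f ∈ Inv i := by
  rw [ka_of i h]
  exact (kap i t ⟨f, h⟩).2

theorem ka_mul {t : ℝ} {f g : SympCt n} (hf : f ∈ Inv i) (hg : g ∈ Inv i) :
    ka i t (f * g) = ka i t f * ka i t g := by
  refine SY.ext_map fun z => ?_
  rw [SY.mul_map, ka_map i (mul_mem hf hg), ka_map i hf, ka_map i hg]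
  exact shift_mul i hf hg (sq_nonneg t) z

theorem ka_zero {f : SympCt n} (hf : f ∈ Inv i) : ka i 0 f = f := by
  rw [ka_of i hf, kap_zero]

theorem ka_ka (s t : ℝ) {f : SympCt n} (hf : f ∈ Inv i) :
    ka i s (ka i t f) = ka i (√(s ^ 2 + t ^ 2)) f := by
  have h1 : ka i t f = (kap i t ⟨f, hf⟩).1 := ka_of i hf
  rw [h1, ka_of i (kap i t ⟨f, hf⟩).2, ka_of i hf]
  exact congrArg Subtype.val (kap_kap i s t ⟨f, hf⟩)

theorem ka_supp {t R : ℝ} {f : SympCt n} (hf : f ∈ Inv i)
    (hR : SuppIn (closedBall 0 R) f.perm) : SuppIn (closedBall 0 R) (ka i t f).perm := by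
  intro z hz
  exact (ka_map i hf z).trans (shift_supp i (sq_nonneg t) hR z hz)

theorem ka_trivial {t R : ℝ} {f : SympCt n} (hf : f ∈ Inv i)
    (hR : SuppIn (closedBall 0 R) f.perm) (ht : R < |t|) : ka i t f = 1 := by
  refine SY.ext_map fun z => ?_
  exact (ka_map i hf z).trans (shift_trivial i hR ht z)

theorem ka_family {P : Type} [NormedAddCommGroup P] [NormedSpace ℝ P] [FiniteDimensional ℝ P]
    {O : Set P} (hO : IsOpen O) (Φ : P → SympCt n) (hm : ∀ p ∈ O, Φ p ∈ Inv i)
    (hΦ : ContDiffOn ℝ ∞ (fun p : P × E n => (Φ p.1).map p.2) (O ×ˢ univ)) :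
    ContDiffOn ℝ ∞ (fun q : (ℝ × P) × E n => (ka i q.1.1 (Φ q.1.2)).map q.2)
      ((univ ×ˢ O) ×ˢ univ) := by
  refine (shift_family i hO (fun p => (Φ p).map) hΦ fun p hp => hm p hp).congr fun q hq => ?_
  exact ka_map i (hm _ hq.1.2) q.2

end Pool.Agent.Q191.RT
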