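import Pool.Agent.Q191.RT.Sym
import Pool.Agent.Q191.SY.Str

/-!
# Contraction of the group of the symplectomorphisms commuting with the rotations of one plane
-/

set_option autoImplicit false

open Set Metric Topology Q170.SC Q196.SL
open scoped ContDiff

namespace Pool.Agent.Q191.RT

variable {n : ℕ} (i : Fin n)

/-- the subgroup of the elements of `G` which commute with the rotations of the `i`-th plane -/
def Inv : Subgroup (SympCt n) where
  carrier := {f | Comm i f.map}
  one_mem' := fun _ _ _ _ => rfl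
  mul_mem' := by
    intro f g hf hg a b hab z
    show f.map (g.map (cmul i a b z)) = cmul i a b (f.map (g.map z))
    rw [hg a b hab, hf a b hab]
  inv_mem' := by
    intro f hf a b hab z
    have h : f.map (cmul i a b (f⁻¹.map z)) = cmul i a b z := by
      rw [hf a b hab, SY.map_inv_map]
    rw [← h, SY.inv_map_map]

theorem shift_id {c : ℝ} (hc : 0 ≤ c) (f : E n → E n) (hf : ∀ z, f z = z) (z : E n) :
    shift i c f z = z := shift_of_fix i hc f z (hf _)

theorem shift_mul {f g : SympCt n} (hf : Comm i f.map) (hg : Comm i g.map) {c : ℝ} (hc : 0 ≤ c)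
    (z : E n) : shift i c (f * g).map z = shift i c f.map (shift i c g.map z) := by
  have hfg : Comm i (f * g).map := (Inv i).mul_mem (x := f) (y := g) hf hg
  have k1 : Continuous (shift i c (f * g).map) :=
    (shift_smooth i hc (SY.map_smooth _) hfg).continuous
  have k2 : Continuous fun z => shift i c f.map (shift i c g.map z) :=
    (shift_smooth i hc (SY.map_smooth _) hf).continuous.comp
      (shift_smooth i hc (SY.map_smooth _) hg).continuous
  refine congrFun (Continuous.ext_on (dense_rad i) k1 k2 ?_) z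
  intro z hz
  have hz' : 0 < rad i z := hz
  have h1 := rad_shift hg hc hz'
  have hr : 0 < √(rad i z) := Real.sqrt_pos.2 hz'
  have hp : 0 < √(rad i z + c) := Real.sqrt_pos.2 (by linarith)
  show shift i c (f * g).map z = shift i c f.map (shift i c g.map z)
  rw [shift_eq hfg hz', shift_eq hf (z := shift i c g.map z) (by rw [h1]; exact hz'), h1,
    shift_eq hg hz', cmul_cmul i (√(rad i z + c) / √(rad i z))]
  have e1 : √(rad i z + c) / √(rad i z) * (√(rad i z) / √(rad i z + c)) - 0 * 0 = 1 := by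
    field_simp
    simp
  have e2 : √(rad i z + c) / √(rad i z) * 0 + 0 * (√(rad i z) / √(rad i z + c)) = 0 := by ring
  rw [e1, e2, cmul_one]
  rfl

theorem norm_le_sec {c : ℝ} (hc : 0 ≤ c) (z : E n) : ‖z‖ ≤ ‖sec i (√(rad i z + c)) z‖ := by
  set w := sec i (√(rad i z + c)) z with hw
  have h1 : ‖w.1‖ ≤ ‖w‖ := norm_fst_le w
  have h2 : ‖w.2‖ ≤ ‖w‖ := norm_snd_le w
  have h3 : √(rad i z + c) ≤ ‖w‖ := by
    have h4 : ‖w.1 i‖ ≤ ‖w.1‖ := norm_le_pi_norm w.1 i
    have h5 : ‖w.1 i‖ = √(rad i z + c) := by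
      rw [hw, sec_fst, Real.norm_of_nonneg (Real.sqrt_nonneg _)]
    linarith
  have h6 : |z.1 i| ≤ √(rad i z + c) := by
    apply Real.abs_le_sqrt
    unfold rad
    nlinarith [sq_nonneg (z.2 i)]
  have h7 : |z.2 i| ≤ √(rad i z + c) := by
    apply Real.abs_le_sqrt
    unfold rad
    nlinarith [sq_nonneg (z.1 i)]
  rw [norm_prod_le_iff]
  constructor
  · rw [pi_norm_le_iff_of_nonneg (norm_nonneg w)]
    intro j
    by_cases h : j = i
    · rw [h]
      exact h6.trans h3
    · have h8 : w.1 j = z.1 j := sec_fst' i _ _ h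
      rw [← h8]
      exact (norm_le_pi_norm w.1 j).trans h1
  · rw [pi_norm_le_iff_of_nonneg (norm_nonneg w)]
    intro j
    by_cases h : j = i
    · rw [h]
      exact h7.trans h3
    · have h8 : w.2 j = z.2 j := sec_snd' i _ _ h
      rw [← h8]
      exact (norm_le_pi_norm w.2 j).trans h2

theorem sqrt_le_sec (c : ℝ) (z : E n) :
    √(rad i z + c) ≤ ‖sec i (√(rad i z + c)) z‖ := by
  set w := sec i (√(rad i z + c)) z with hw
  have h1 : ‖w.1‖ ≤ ‖w‖ := norm_fst_le w
  have h4 : ‖w.1 i‖ ≤ ‖w.1‖ := norm_le_pi_norm w.1 i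
  have h5 : ‖w.1 i‖ = √(rad i z + c) := by
    rw [hw, sec_fst, Real.norm_of_nonneg (Real.sqrt_nonneg _)]
  linarith

theorem shift_supp {c : ℝ} (hc : 0 ≤ c) {f : SympCt n} {R : ℝ}
    (hf : SuppIn (closedBall 0 R) f.perm) (z : E n) (hz : z ∉ closedBall (0 : E n) R) :
    shift i c f.map z = z := by
  refine shift_of_fix i hc _ _ (hf _ ?_)
  rw [mem_closedBall_zero_iff, not_le] at hz ⊢
  exact hz.trans_le (norm_le_sec i hc z)

theorem shift_trivial {t : ℝ} {f : SympCt n} {R : ℝ}
    (hf : SuppIn (closedBall 0 R) f.perm) (ht : R < |t|) (z : E n) :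
    shift i (t ^ 2) f.map z = z := by
  refine shift_of_fix i (sq_nonneg t) _ _ (hf _ ?_)
  rw [mem_closedBall_zero_iff, not_le]
  have h1 : |t| ≤ √(rad i z + t ^ 2) := by
    apply Real.abs_le_sqrt
    have := rad_nonneg i z
    linarith
  exact ht.trans_le (h1.trans (sqrt_le_sec i _ z))

/-- the shifted bijection -/
noncomputable def shiftPerm {f : SympCt n} (hf : Comm i f.map) {c : ℝ} (hc : 0 ≤ c) :
    Equiv.Perm (E n) where
  toFun := shift i c f.map
  invFun := shift i c f⁻¹.map
  left_inv z := by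
    have hf' : Comm i f⁻¹.map := (Inv i).inv_mem (x := f) hf
    rw [← shift_mul i hf' hf hc, inv_mul_cancel]
    exact shift_id i hc _ (fun z => rfl) z
  right_inv z := by
    have hf' : Comm i f⁻¹.map := (Inv i).inv_mem (x := f) hf
    rw [← shift_mul i hf hf' hc, mul_inv_cancel]
    exact shift_id i hc _ (fun z => rfl) z

theorem shiftPerm_symp {f : SympCt n} (hf : Comm i f.map) {c : ℝ} (hc : 0 ≤ c) :
    IsSymp (shiftPerm i hf hc) where
  smooth := shift_smooth i hc (SY.map_smooth f) hf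
  smooth_symm := shift_smooth i hc (SY.map_smooth f⁻¹) ((Inv i).inv_mem (x := f) hf)
  form := shift_form hf hc

/-- the contraction -/
noncomputable def kap (t : ℝ) : Inv i →* Inv i where
  toFun f := ⟨⟨shiftPerm i f.2 (sq_nonneg t), shiftPerm_symp i f.2 (sq_nonneg t), by
    obtain ⟨R, _, hR⟩ := SY.exists_ball f.1
    exact ⟨closedBall 0 R, isCompact_closedBall _ _, shift_supp i (sq_nonneg t) hR⟩⟩,
    shift_comm i _ _⟩
  map_one' := by
    refine Subtype.ext (SY.ext_map fun z => ?_)
    exact shift_id i (sq_nonneg t) _ (fun _ => rfl) z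
  map_mul' f g := by
    refine Subtype.ext (SY.ext_map fun z => ?_)
    exact shift_mul i f.2 g.2 (sq_nonneg t) z

theorem kap_map (t : ℝ) (f : Inv i) (z : E n) :
    (kap i t f).1.map z = shift i (t ^ 2) f.1.map z := rfl

theorem kap_zero (f : Inv i) : kap i 0 f = f := by
  refine Subtype.ext (SY.ext_map fun z => ?_)
  rw [kap_map, zero_pow two_ne_zero]
  exact shift_zero f.2 z

theorem kap_family {P : Type} [NormedAddCommGroup P] [NormedSpace ℝ P] [FiniteDimensional ℝ P]
    {O : Set P} (hO : IsOpen O) (Φ : P → Inv i)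
    (hΦ : ContDiffOn ℝ ∞ (fun p : P × E n => (Φ p.1).1.map p.2) (O ×ˢ univ)) :
    ContDiffOn ℝ ∞ (fun q : (ℝ × P) × E n => (kap i q.1.1 (Φ q.1.2)).1.map q.2)
      ((univ ×ˢ O) ×ˢ univ) :=
  shift_family i hO (fun p => (Φ p).1.map) hΦ fun p _ => (Φ p).2

/-- the path given by the contraction -/
theorem kap_path (f : Inv i) : ContDiff ℝ ∞ (fun q : ℝ × E n => (kap i q.1 f).1.map q.2) :=
  shift_path i (SY.map_smooth f.1) f.2

/-- semigroup property -/
theorem kap_kap (s t : ℝ) (f : Inv i) : kap i s (kap i t f) = kap i (√(s ^ 2 + t ^ 2)) f := by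
  refine Subtype.ext (SY.ext_map fun z => ?_)
  have hst : 0 ≤ s ^ 2 + t ^ 2 := by positivity
  have k1 : Continuous (kap i s (kap i t f)).1.map := (SY.map_smooth _).continuous
  have k2 : Continuous (kap i (√(s ^ 2 + t ^ 2)) f).1.map := (SY.map_smooth _).continuous
  refine congrFun (Continuous.ext_on (dense_rad i) k1 k2 ?_) z
  intro z hz
  have hz' : 0 < rad i z := hz
  rw [kap_map, kap_map, Real.sq_sqrt hst]
  have e : (kap i t f).1.map = shift i (t ^ 2) f.1.map := rfl
  rw [e]
  have hr : 0 < √(rad i z) := Real.sqrt_pos.2 hz'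
  have hs2 : 0 ≤ s ^ 2 := sq_nonneg s
  have ht2 : 0 ≤ t ^ 2 := sq_nonneg t
  have hp : 0 < √(rad i z + s ^ 2) := Real.sqrt_pos.2 (by linarith)
  have hq : 0 < √(rad i z + (s ^ 2 + t ^ 2)) := Real.sqrt_pos.2 (by linarith)
  have h1 : rad i (cmul i (√(rad i z + s ^ 2) / √(rad i z)) 0 z) = rad i z + s ^ 2 := by
    rw [rad_cmul, div_pow, Real.sq_sqrt (by linarith), Real.sq_sqrt (by linarith)]
    field_simp
    ring
  rw [shift_eq (shift_comm i _ _) hz', shift_eq f.2 (z := cmul i _ 0 z) (by rw [h1]; linarith),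
    shift_eq f.2 hz', h1, cmul_cmul, cmul_cmul, add_assoc]
  congr 1
  · field_simp
    simp
  · ring
  · congr 2
    · field_simp
      simp
    · ring

end Pool.Agent.Q191.RT
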