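import Pool.Agent.Q191.RT.Fam

/-!
# The shifted maps are symplectic
-/

set_option autoImplicit false

open Set Metric Topology Q170.SC Q196.SL
open scoped ContDiff

namespace Pool.Agent.Q191.RT

variable {n : ℕ} (i : Fin n)

/-- the unit vectors of the `i`-th coordinate plane -/
def e1 : E n := (Pi.single i 1, 0)

def e2 : E n := (0, Pi.single i 1)

theorem omega_e1_left (v : E n) : omega (e1 i) v = v.2 i := by
  unfold omega e1
  rw [Finset.sum_eq_single i]
  · simp
  · intro j _ hj
    simp [Pi.single_eq_of_ne hj]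
  · simp

theorem omega_e2_left (v : E n) : omega (e2 i) v = -v.1 i := by
  unfold omega e2
  rw [Finset.sum_eq_single i]
  · simp
  · intro j _ hj
    simp [Pi.single_eq_of_ne hj]
  · simp

theorem omega_e1_right (v : E n) : omega v (e1 i) = -v.2 i := by
  unfold omega e1
  rw [Finset.sum_eq_single i]
  · simp
  · intro j _ hj
    simp [Pi.single_eq_of_ne hj]
  · simp

theorem omega_e2_right (v : E n) : omega v (e2 i) = v.1 i := by
  unfold omega e2
  rw [Finset.sum_eq_single i]
  · simp
  · intro j _ hj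
    simp [Pi.single_eq_of_ne hj]
  · simp

/-- derivative of the function `rad` -/
noncomputable def drad (z : E n) : E n →L[ℝ] ℝ :=
  (2 * z.1 i) • ((ContinuousLinearMap.proj i).comp (ContinuousLinearMap.fst ℝ (Fin n → ℝ) (Fin n → ℝ))) +
  (2 * z.2 i) • ((ContinuousLinearMap.proj i).comp (ContinuousLinearMap.snd ℝ (Fin n → ℝ) (Fin n → ℝ)))

theorem drad_apply (z u : E n) : drad i z u = 2 * z.1 i * u.1 i + 2 * z.2 i * u.2 i := rfl

theorem hasF_fst (z : E n) : HasFDerivAt (fun z : E n => z.1 i)
    ((ContinuousLinearMap.proj i).comp (ContinuousLinearMap.fst ℝ (Fin n → ℝ) (Fin n → ℝ))) z :=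
  ContinuousLinearMap.hasFDerivAt
    ((ContinuousLinearMap.proj i).comp (ContinuousLinearMap.fst ℝ (Fin n → ℝ) (Fin n → ℝ)))

theorem hasF_snd (z : E n) : HasFDerivAt (fun z : E n => z.2 i)
    ((ContinuousLinearMap.proj i).comp (ContinuousLinearMap.snd ℝ (Fin n → ℝ) (Fin n → ℝ))) z :=
  ContinuousLinearMap.hasFDerivAt
    ((ContinuousLinearMap.proj i).comp (ContinuousLinearMap.snd ℝ (Fin n → ℝ) (Fin n → ℝ)))

theorem hasF_rad (z : E n) : HasFDerivAt (rad i) (drad i z) z := by
  have h := ((hasF_fst i z).pow 2).add ((hasF_snd i z).pow 2)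
  refine h.congr_fderiv ?_
  ext u <;> simp [drad]

/-- the generator of the rotations -/
def gen (z : E n) : E n := (-z.2 i) • e1 i + (z.1 i) • e2 i

theorem omega_gen (z v : E n) : 2 * omega (gen i z) v = -drad i z v := by
  unfold gen
  rw [omega_add_left, omega_smul_left, omega_smul_left, omega_e1_left, omega_e2_left, drad_apply]
  ring

theorem rot_eq (a b : ℝ) (z : E n) : cmul i a b z =
    z + ((a - 1) * z.1 i - b * z.2 i) • e1 i + (b * z.1 i + (a - 1) * z.2 i) • e2 i := by
  refine ext_i i ?_ ?_ (fun j h => ?_) (fun j h => ?_)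
  · rw [cmul_fst]
    simp [e1, e2]
    ring
  · rw [cmul_snd]
    simp [e1, e2]
    ring
  · rw [cmul_fst' i _ _ _ h]
    simp [e1, e2, Pi.single_eq_of_ne h]
  · rw [cmul_snd' i _ _ _ h]
    simp [e1, e2, Pi.single_eq_of_ne h]

theorem hasDeriv_rot (z : E n) :
    HasDerivAt (fun t : ℝ => cmul i (Real.cos t) (Real.sin t) z) (gen i z) 0 := by
  have h1 : (fun t : ℝ => cmul i (Real.cos t) (Real.sin t) z) = fun t : ℝ =>
      z + ((Real.cos t - 1) * z.1 i - Real.sin t * z.2 i) • e1 i +
        (Real.sin t * z.1 i + (Real.cos t - 1) * z.2 i) • e2 i := by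
    funext t
    exact rot_eq i _ _ z
  rw [h1]
  have c0 : HasDerivAt (fun t : ℝ => Real.cos t - 1) 0 0 := by
    simpa using (Real.hasDerivAt_cos 0).sub_const 1
  have s0 : HasDerivAt Real.sin 1 0 := by simpa using Real.hasDerivAt_sin 0
  have h2 := ((c0.mul_const (z.1 i)).sub (s0.mul_const (z.2 i))).smul_const (e1 i)
  have h3 := ((s0.mul_const (z.1 i)).add (c0.mul_const (z.2 i))).smul_const (e2 i)
  have h4 := ((hasDerivAt_const (0:ℝ) z).add h2).add h3
  refine h4.congr_deriv ?_
  unfold gen
  simp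

variable {i}

/-- the derivative of an equivariant map keeps the generator -/
theorem Comm.gen {f : E n → E n} (hf : Comm i f) (hd : Differentiable ℝ f) (z : E n) :
    fderiv ℝ f z (gen i z) = RT.gen i (f z) := by
  have h0 : cmul i (Real.cos 0) (Real.sin 0) z = z := by
    rw [Real.cos_zero, Real.sin_zero, cmul_one]
  have h1 : HasDerivAt (fun t : ℝ => f (cmul i (Real.cos t) (Real.sin t) z))
      (fderiv ℝ f z (RT.gen i z)) 0 := by
    have h2 : HasFDerivAt f (fderiv ℝ f z) (cmul i (Real.cos 0) (Real.sin 0) z) := by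
      rw [h0]
      exact (hd z).hasFDerivAt
    exact h2.comp_hasDerivAt 0 (hasDeriv_rot i z)
  have h2 : (fun t : ℝ => f (cmul i (Real.cos t) (Real.sin t) z)) = fun t : ℝ =>
      cmul i (Real.cos t) (Real.sin t) (f z) := by
    funext t
    exact hf _ _ (Real.cos_sq_add_sin_sq t) z
  rw [h2] at h1
  exact h1.unique (hasDeriv_rot i (f z))

/-- **Equivariant symplectic maps with compact support keep the radius.** -/
theorem rad_map {f : SympCt n} (hf : Comm i f.map) (z : E n) : rad i (f.map z) = rad i z := by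
  have hsm := SY.map_smooth f
  have hd : Differentiable ℝ f.map := hsm.differentiable (by simp)
  have hder : ∀ z, HasFDerivAt (fun z => rad i (f.map z) - rad i z)
      ((drad i (f.map z)).comp (fderiv ℝ f.map z) - drad i z) z := fun z =>
    ((hasF_rad i (f.map z)).comp z (hd z).hasFDerivAt).sub (hasF_rad i z)
  have h0 : ∀ z, (drad i (f.map z)).comp (fderiv ℝ f.map z) - drad i z = 0 := by
    intro z
    refine ContinuousLinearMap.ext fun v => ?_
    have a1 := omega_gen i (f.map z) (fderiv ℝ f.map z v)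
    have a2 := omega_gen i z v
    have a3 : omega (fderiv ℝ f.map z (gen i z)) (fderiv ℝ f.map z v) = omega (gen i z) v :=
      f.2.1.form z _ _
    rw [hf.gen hd] at a3
    show drad i (f.map z) (fderiv ℝ f.map z v) - drad i z v = 0
    linarith
  obtain ⟨R, hR, hsupp⟩ := SY.exists_ball f
  let p : E n := (fun _ => R + 1, fun _ => 0)
  have hp : p ∉ closedBall (0 : E n) R := by
    intro h
    rw [mem_closedBall_zero_iff] at h
    have h1 : ‖p.1‖ ≤ ‖p‖ := norm_fst_le p
    have h2 : ‖p.1 i‖ ≤ ‖p.1‖ := norm_le_pi_norm p.1 i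
    have h3 : ‖p.1 i‖ = R + 1 := by
      show ‖(R + 1 : ℝ)‖ = R + 1
      rw [Real.norm_of_nonneg (by linarith)]
    linarith
  have hfp : f.map p = p := hsupp p hp
  have hconst := is_const_of_fderiv_eq_zero (𝕜 := ℝ)
    (f := fun z => rad i (f.map z) - rad i z) (fun z => (hder z).differentiableAt)
    (fun z => by rw [(hder z).fderiv, h0 z]) z p
  simp only [hfp, sub_self] at hconst
  linarith

variable (i)

/-- the factor of the shift -/
noncomputable def lam (c : ℝ) (z : E n) : ℝ := √(1 + c / rad i z)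

/-- the shift of the radius -/
noncomputable def Lam (c : ℝ) (z : E n) : E n :=
  z + ((lam i c z - 1) * z.1 i) • e1 i + ((lam i c z - 1) * z.2 i) • e2 i

theorem Lam_eq (c : ℝ) (z : E n) : Lam i c z = cmul i (lam i c z) 0 z := by
  rw [rot_eq]
  unfold Lam
  simp

/-- the shift of the radius preserves the form -/
theorem Lam_form {c : ℝ} (hc : 0 ≤ c) {z : E n} (hz : 0 < rad i z) :
    ∃ L : E n →L[ℝ] E n, HasFDerivAt (Lam i c) L z ∧ ∀ u v, omega (L u) (L v) = omega u v := by
  have hq : (1 + c / rad i z) ≠ 0 := by positivity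
  have hl : 0 < lam i c z := Real.sqrt_pos.2 (by positivity)
  have hl2 : lam i c z ^ 2 = 1 + c / rad i z := Real.sq_sqrt (by positivity)
  have h1 : HasFDerivAt (fun z => 1 + c / rad i z) ((-(c / rad i z ^ 2)) • drad i z) z := by
    have a1 : HasFDerivAt (fun z => (rad i z)⁻¹) ((-(rad i z ^ 2)⁻¹) • drad i z) z :=
      (hasDerivAt_inv hz.ne').comp_hasFDerivAt z (hasF_rad i z)
    have a2 := (a1.const_mul c).const_add 1
    refine (a2.congr_fderiv ?_).congr_of_eventuallyEq ?_
    · rw [smul_smul]
      congr 1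
      field_simp
    · refine Filter.Eventually.of_forall fun z => ?_
      simp only [div_eq_mul_inv]
  have h2 : HasFDerivAt (lam i c) ((1 / (2 * lam i c z)) • ((-(c / rad i z ^ 2)) • drad i z)) z :=
    h1.sqrt hq
  set dl : E n →L[ℝ] ℝ := (1 / (2 * lam i c z)) • ((-(c / rad i z ^ 2)) • drad i z) with hdl
  have h3 := ((h2.sub_const 1).mul (hasF_fst i z)).smul_const (e1 i)
  have h4 := ((h2.sub_const 1).mul (hasF_snd i z)).smul_const (e2 i)
  have h5 := ((hasFDerivAt_id z).add h3).add h4
  refine ⟨_, h5, fun u v => ?_⟩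
  have hL : ∀ u, (ContinuousLinearMap.id ℝ (E n) +
      ((lam i c z - 1) • ((ContinuousLinearMap.proj i).comp
        (ContinuousLinearMap.fst ℝ (Fin n → ℝ) (Fin n → ℝ))) +
        z.1 i • dl).smulRight (e1 i) +
      ((lam i c z - 1) • ((ContinuousLinearMap.proj i).comp
        (ContinuousLinearMap.snd ℝ (Fin n → ℝ) (Fin n → ℝ))) +
        z.2 i • dl).smulRight (e2 i)) u =
      u + ((lam i c z - 1) * u.1 i + z.1 i * dl u) • e1 i +
        ((lam i c z - 1) * u.2 i + z.2 i * dl u) • e2 i := fun u => rfl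
  rw [hL, hL]
  simp only [omega_add_left, omega_add_right, omega_smul_left, omega_smul_right, omega_e1_left,
    omega_e2_left, omega_e1_right, omega_e2_right]
  have f1 : ∀ a b : ℝ, (u + a • e1 i + b • e2 i).1 i = u.1 i + a := by
    intro a b
    simp [e1, e2]
  have f2 : ∀ a b : ℝ, (u + a • e1 i + b • e2 i).2 i = u.2 i + b := by
    intro a b
    simp [e1, e2]
  rw [f1, f2]
  have g : ∀ u, lam i c z * dl u = -(c / rad i z ^ 2) * (z.1 i * u.1 i + z.2 i * u.2 i) := by
    intro u
    show lam i c z * (1 / (2 * lam i c z) * (-(c / rad i z ^ 2) * drad i z u)) = _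
    rw [drad_apply]
    field_simp
  have gu := g u
  have gv := g v
  have hr : rad i z = z.1 i ^ 2 + z.2 i ^ 2 := rfl
  set l := lam i c z
  set du := dl u
  set dv := dl v
  set x := z.1 i
  set y := z.2 i
  set q := rad i z with hqdef
  have hk : (c / q ^ 2) * q = c / q := by
    field_simp
  have hl3 : l ^ 2 = 1 + (c / q ^ 2) * (x ^ 2 + y ^ 2) := by rw [← hr, hk]; exact hl2
  linear_combination (u.1 i * v.2 i - u.2 i * v.1 i) * hl3 + (y * u.1 i - x * u.2 i) * gv +
    (x * v.2 i - y * v.1 i) * gu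


variable {i}

/-- the shifted map of a symplectic map is a shift of the radius followed by the map -/
theorem Lam_shift {f : SympCt n} (hf : Comm i f.map) {c : ℝ} (hc : 0 ≤ c) {z : E n}
    (hz : 0 < rad i z) : Lam i c (shift i c f.map z) = f.map (Lam i c z) := by
  have hr : 0 < √(rad i z) := Real.sqrt_pos.2 hz
  have hp : 0 < √(rad i z + c) := Real.sqrt_pos.2 (by linarith)
  have h1 : lam i c z = √(rad i z + c) / √(rad i z) := by
    unfold lam
    rw [← Real.sqrt_div (by linarith)]
    congr 1
    field_simp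
  have h2 : rad i (shift i c f.map z) = rad i z := by
    rw [shift_eq hf hz, rad_cmul, rad_map hf, rad_cmul, ← mul_assoc]
    have : ((√(rad i z) / √(rad i z + c)) ^ 2 + 0 ^ 2) *
        ((√(rad i z + c) / √(rad i z)) ^ 2 + 0 ^ 2) = 1 := by
      field_simp
      simp
    rw [this, one_mul]
  have h3 : lam i c (shift i c f.map z) = lam i c z := by
    unfold lam
    rw [h2]
  rw [Lam_eq, Lam_eq, h3, h1, shift_eq hf hz, cmul_cmul]
  have e1 : √(rad i z + c) / √(rad i z) * (√(rad i z) / √(rad i z + c)) - 0 * 0 = 1 := by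
    field_simp
    simp
  have e2 : √(rad i z + c) / √(rad i z) * 0 + 0 * (√(rad i z) / √(rad i z + c)) = 0 := by ring
  rw [e1, e2, cmul_one]

theorem rad_shift {f : SympCt n} (hf : Comm i f.map) {c : ℝ} {z : E n}
    (hc : 0 ≤ c) (hz : 0 < rad i z) : rad i (shift i c f.map z) = rad i z := by
  have hr : 0 < √(rad i z) := Real.sqrt_pos.2 hz
  have hp : 0 < √(rad i z + c) := Real.sqrt_pos.2 (by linarith)
  rw [shift_eq hf hz, rad_cmul, rad_map hf, rad_cmul, ← mul_assoc]
  have : ((√(rad i z) / √(rad i z + c)) ^ 2 + 0 ^ 2) *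
      ((√(rad i z + c) / √(rad i z)) ^ 2 + 0 ^ 2) = 1 := by
    field_simp
    simp
  rw [this, one_mul]

/-- **The shifted map preserves the form.** -/
theorem shift_form {f : SympCt n} (hf : Comm i f.map) {c : ℝ} (hc : 0 ≤ c) (z u v : E n) :
    omega (fderiv ℝ (shift i c f.map) z u) (fderiv ℝ (shift i c f.map) z v) = omega u v := by
  have hsm := SY.map_smooth f
  have hS : ContDiff ℝ ∞ (shift i c f.map) := shift_smooth i hc hsm hf
  have hSd : Differentiable ℝ (shift i c f.map) := hS.differentiable (by simp)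
  have hcont : Continuous fun z =>
      omega (fderiv ℝ (shift i c f.map) z u) (fderiv ℝ (shift i c f.map) z v) := by
    have h1 : Continuous (fderiv ℝ (shift i c f.map)) := hS.continuous_fderiv (by simp)
    have h2 : Continuous fun z => fderiv ℝ (shift i c f.map) z u := h1.clm_apply continuous_const
    have h3 : Continuous fun z => fderiv ℝ (shift i c f.map) z v := h1.clm_apply continuous_const
    unfold omega
    refine continuous_finset_sum _ fun j _ => ?_
    exact (((continuous_apply j).comp (continuous_fst.comp h2)).mul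
      ((continuous_apply j).comp (continuous_snd.comp h3))).sub
      (((continuous_apply j).comp (continuous_snd.comp h2)).mul
        ((continuous_apply j).comp (continuous_fst.comp h3)))
  refine congrFun (Continuous.ext_on (dense_rad i) hcont continuous_const ?_) z
  intro z hz
  have hz' : 0 < rad i z := hz
  obtain ⟨L, hL, hL2⟩ := Lam_form i hc hz'
  obtain ⟨M, hM, hM2⟩ := Lam_form i hc (z := shift i c f.map z) (by rw [rad_shift hf hc hz']; exact hz')
  have k1 : HasFDerivAt (fun z => Lam i c (shift i c f.map z))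
      (M.comp (fderiv ℝ (shift i c f.map) z)) z := hM.comp z (hSd z).hasFDerivAt
  have k2 : HasFDerivAt (fun z => f.map (Lam i c z)) ((fderiv ℝ f.map (Lam i c z)).comp L) z :=
    ((hsm.differentiable (by simp)) _).hasFDerivAt.comp z hL
  have k3 : (fun z => Lam i c (shift i c f.map z)) =ᶠ[𝓝 z] fun z => f.map (Lam i c z) := by
    filter_upwards [(isOpen_rad i).mem_nhds hz] with y hy
    exact Lam_shift hf hc hy
  have k4 : M.comp (fderiv ℝ (shift i c f.map) z) = (fderiv ℝ f.map (Lam i c z)).comp L :=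
    (k1.congr_of_eventuallyEq k3.symm).unique k2
  have k5 : ∀ u, M (fderiv ℝ (shift i c f.map) z u) = fderiv ℝ f.map (Lam i c z) (L u) :=
    fun u => DFunLike.congr_fun k4 u
  show omega (fderiv ℝ (shift i c f.map) z u) (fderiv ℝ (shift i c f.map) z v) = omega u v
  rw [← hM2, k5, k5]
  exact (f.2.1.form _ _ _).trans (hL2 u v)

end Pool.Agent.Q191.RT
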